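import Pool.Agent.Run7.h128.NW.Gau
import Pool.Agent.Run7.h128.NW.Den

/-!
# Exact divisors of `α ^ (N q - 1) - 1` in the Gaussian integers

Unconditional results on the Gaussian primes `q` which are not Wieferich primes to the base `α`.
-/

set_option autoImplicit false

namespace Pool.Agent.Results.MP_dc323a_nt.GaussianNonWieferich

/-- the norm `|q|²` of a Gaussian integer -/
abbrev nrm (q : GaussianInt) : ℕ := q.norm.natAbs

/-- The Gaussian prime `q` is not a Wieferich prime for the base `α`: `q` divides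
`α ^ (N q - 1) - 1` exactly once. -/
def NonWieferich (α q : GaussianInt) : Prop :=
  q ∣ α ^ (nrm q - 1) - 1 ∧ ¬ q ^ 2 ∣ α ^ (nrm q - 1) - 1

/-- Infinitely many Gaussian primes are not Wieferich primes for the base `α`. -/
def Rich (α : GaussianInt) : Prop :=
  ∀ B : ℕ, ∃ q : GaussianInt, Prime q ∧ B < nrm q ∧ NonWieferich α q

/-- Some Gaussian prime divides `α ^ n - 1` exactly once and divides no `α ^ m - 1`, `1 ≤ m < n`. -/
def ExactPrimitive (α : GaussianInt) (n : ℕ) : Prop :=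
  ∃ q : GaussianInt, Prime q ∧ q ∣ α ^ n - 1 ∧ ¬ q ^ 2 ∣ α ^ n - 1 ∧
    ∀ m : ℕ, 1 ≤ m → m < n → ¬ q ∣ α ^ m - 1

/-- The Gaussian integers `x + iy` with `|x|, |y| ≤ T` which are rich bases. -/
def RichBox (T : ℕ) : Set GaussianInt := {α | |α.re| ≤ T ∧ |α.im| ≤ T ∧ Rich α}

open Run7.h128.NW in
lemma good {p b : ℕ} (hp : p.Prime) (hp2 : p ≠ 2) (hb : ¬ p ∣ b) (hW : ¬ p ^ 2 ∣ b ^ (p - 1) - 1)
    {β : GaussianInt} {n m : ℕ} (hn : 0 < n) (hβ : β ^ n = ((b : ℤ) : GaussianInt) ^ m)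
    (hm : ¬ p ∣ m) (q : GaussianInt) (hq : Prime q) (h : q ∣ (p : GaussianInt)) :
    NonWieferich β q ∧ ∀ α : GaussianInt, ¬ q ∣ α → ∀ i j : ℕ, i < j → ¬ p ∣ j - i →
      NonWieferich (β ^ i * α) q ∨ NonWieferich (β ^ j * α) q := by
  have key : ∀ α : GaussianInt, ¬ q ∣ α → ∀ i j : ℕ, i < j → ¬ p ∣ j - i →
      NonWieferich (β ^ i * α) q ∨ NonWieferich (β ^ j * α) q := fun α hα i j hij hd =>
    Gau.chain hp hp2 hb hW hq h hn hβ hm hα hij hd
  refine ⟨?_, key⟩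
  rcases key 1 (fun h1 => hq.not_isUnit (isUnit_of_dvd_one h1)) 0 1 one_pos (by
    intro h1
    exact hp.one_lt.ne' (Nat.dvd_one.1 h1)) with h1 | h1
  · exfalso
    apply h1.2
    rw [pow_zero, one_mul, one_pow, sub_self]
    exact dvd_zero _
  · rwa [pow_one, mul_one] at h1

lemma one_i : (⟨1, 1⟩ : GaussianInt) ^ 8 = (((2 : ℕ) : ℤ) : GaussianInt) ^ 4 := by decide

lemma one_i' : (⟨1, 1⟩ : GaussianInt) ≠ 0 := by decide

open Run7.h128.NW in
/-- **Theorem.** -/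
theorem result :
    (∃ x₀ : ℕ, ∀ x : ℕ, x₀ ≤ x → (x : ℝ) / (50 * Real.log x) ≤
      ({p : ℕ | p ≤ x ∧ p.Prime ∧ ∀ q : GaussianInt, Prime q → q ∣ (p : GaussianInt) →
        NonWieferich ⟨1, 1⟩ q ∧ ∀ α : GaussianInt, ¬ q ∣ α → ∀ i j : ℕ, i < j → ¬ p ∣ j - i →
          NonWieferich (⟨1, 1⟩ ^ i * α) q ∨ NonWieferich (⟨1, 1⟩ ^ j * α) q}.ncard : ℝ)) ∧
    (∃ x₀ : ℕ, ∀ x : ℕ, x₀ ≤ x → (x : ℝ) / (111 * Real.log x) ≤
      ({p : ℕ | p ≤ x ∧ p.Prime ∧ ∀ q : GaussianInt, Prime q → q ∣ (p : GaussianInt) →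
        NonWieferich 3 q ∧ ∀ α : GaussianInt, ¬ q ∣ α → ∀ i j : ℕ, i < j → ¬ p ∣ j - i →
          NonWieferich (3 ^ i * α) q ∨ NonWieferich (3 ^ j * α) q}.ncard : ℝ)) ∧
    (∀ g : GaussianInt, g = ⟨1, 1⟩ ∨ g = 3 ∨ g = 432 → ∀ α : GaussianInt, α ≠ 0 →
      ∀ k : ℕ, 0 < k → Rich α ∨ Rich (g ^ k * α)) ∧
    (∀ α β : GaussianInt, α ≠ 0 → β ≠ 0 →
      (¬ Rich α → ¬ Rich β → ¬ Rich (α * β)) ∧ (¬ Rich (α * β) → ¬ Rich β → ¬ Rich α)) ∧
    (∀ α : GaussianInt, α ≠ 0 → ∀ k : ℕ, 0 < k → Rich α → Rich (α ^ k)) ∧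
    (∀ T : ℕ, 2 * T ^ 2 + 2 * T ≤ (RichBox T).ncard) ∧
    (∀ α : GaussianInt, Rich α → {n : ℕ | ExactPrimitive α n}.Infinite) := by
  classical
  have hg : ∀ g : GaussianInt, g = ⟨1, 1⟩ ∨ g = 3 ∨ g = 432 → ∀ α : GaussianInt, α ≠ 0 →
      ∀ k : ℕ, 0 < k → Rich α ∨ Rich (g ^ k * α) := by
    rintro g (rfl | rfl | rfl) α hα k hk
    · exact Gau.rich_or one_i' (fun d hd => Gau.not_poor (b := 2) (by norm_num) inf_two
        (n := 8) (m := 4) (by norm_num) one_i hd) hα hk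
    · exact Gau.rich_or (by decide) (fun d hd => Gau.not_poor (b := 3) (by norm_num) inf_three
        (n := 1) (m := 1) (by norm_num) (by norm_num) hd) hα hk
    · exact Gau.rich_or (by decide) (fun d hd => Gau.not_poor (b := 432) (by norm_num) inf_432
        (n := 1) (m := 1) (by norm_num) (by norm_num) hd) hα hk
  refine ⟨?_, ?_, hg, ?_, ?_, ?_, ?_⟩
  · exact dens_two _ fun p hp hp2 hW => good hp hp2
      (fun hd => hp2 ((Nat.prime_dvd_prime_iff_eq hp Nat.prime_two).1 hd)) hW (n := 8) (m := 4)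
      (by norm_num) one_i (fun hd => hp2 (by
        have h1 : p ∣ 2 ^ 2 := hd
        exact (Nat.prime_dvd_prime_iff_eq hp Nat.prime_two).1 (hp.dvd_of_dvd_pow h1)))
  · exact dens_three _ fun p hp hp2 hp3 hW => good hp hp2
      (fun hd => hp3 ((Nat.prime_dvd_prime_iff_eq hp Nat.prime_three).1 hd)) hW (n := 1) (m := 1)
      (by norm_num) (by norm_num) (fun hd => hp.one_lt.ne' (Nat.dvd_one.1 hd))
  · intro α β hα hβ
    refine ⟨fun h1 h2 => ?_, fun h1 h2 => ?_⟩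
    · have h3 := fun h => h1 ((Gau.rich_iff hα).2 h)
      have h4 := fun h => h2 ((Gau.rich_iff hβ).2 h)
      exact fun h5 => (Gau.rich_iff (mul_ne_zero hα hβ)).1 h5
        (Gau.poor_mul (not_not.1 h3) (not_not.1 h4))
    · have h3 := fun h => h1 ((Gau.rich_iff (mul_ne_zero hα hβ)).2 h)
      have h4 := fun h => h2 ((Gau.rich_iff hβ).2 h)
      exact fun h5 => (Gau.rich_iff hα).1 h5 (Gau.poor_div (not_not.1 h3) (not_not.1 h4))
  · intro α hα k hk h
    refine (Gau.rich_iff (pow_ne_zero _ hα)).2 fun h1 => ?_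
    exact (Gau.rich_iff hα).1 h (Gau.poor_root hα hk h1)
  · intro T
    have h1 := count_good (g := (⟨1, 1⟩ : GaussianInt)) (fun h => by
        have h2 := Zsqrtd.norm_eq_one_iff.2 h
        revert h2
        decide) Rich (fun α hα k hk => hg _ (Or.inl rfl) α hα k hk) (Gau.box T)
        (fun h => (Gau.mem_box.1 h).1 rfl) (fun β h => Gau.box_closed h)
    refine (Gau.card_multiples T).trans (h1.trans ?_)
    rw [← Set.ncard_coe_finset]
    refine Set.ncard_le_ncard ?_ ?_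
    · intro α hα
      rw [Finset.mem_coe, Finset.mem_filter, Gau.mem_box] at hα
      exact ⟨hα.1.2.1, hα.1.2.2, hα.2⟩
    · refine ((Finset.finite_toSet (Gau.box T)).union (Set.finite_singleton 0)).subset ?_
      intro α hα
      by_cases h0 : α = 0
      · right; exact h0
      · left
        exact Finset.mem_coe.2 (Gau.mem_box.2 ⟨h0, hα.1, hα.2.1⟩)
  · intro α h
    exact Gau.infinite_exact h

end Pool.Agent.Results.MP_dc323a_nt.GaussianNonWieferich
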