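import Mathlib
import Pool.Agent.Run7.h585.NF.LdI
import Pool.Agent.Run7.h585.NF.Gau

/-!
# Large deviations of the three radicals of coprime Gaussian integers `a + b = c`

For coprime Gaussian integers `a + b = c` with `a b c ≠ 0` let `M = max {|a|, |b|, |c|}`. Then
`rad(abc) = rad(a) rad(b) rad(c)`, each factor is at most `M`, and almost always it is about `M`. Let the three gains be
`g_l = 1 - log rad(n_l) / log M`, `n_l = a, b, c`, cut off at `0` and `1`. We determine how often the vector of the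
gains is in a given closed set `E`, with the second order term. (The inequality of the problem fails for a triple,
`rad(abc) < M ^ (1 - ε)`, if and only if `g_0 + g_1 + g_2 > 2 + ε`; the theorem covers the sets in which the least
total gain `s` is less than `1`.)

1. `rad(abc) = rad(a) rad(b) rad(c)`.
2. Let `κ` in `E` have nonnegative coordinates and the least total gain `s = ∑ κ_l`, `0 < s < 1`, of all elements of `E`
   in the unit cube, with the largest `∑ √κ_l` among the elements with the least total gain, and suppose that `E`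
   contains a small cube with the corner `κ`. Then the number `V(X)` of the pairs `(a, b)` with `M ≤ X` and gains in `E`
   satisfies `log V(X) = 2 (2 - s) log X + (4 ∑_l √κ_l + o(1)) √(log X / log log X)`.
3. If `U` is an open set which contains all the elements of `E` in the unit cube with the least total gain and the largest
   `∑ √g_l`, then the gains of all but a proportion `exp (-δ √(log X / log log X))` of these pairs are in `U`.

The proof uses the theorem for the points over a number field (`Pool/Agent/Run7/h585/NF/LdA.lean`) for `ℚ(i)`.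
-/

set_option autoImplicit false

namespace Pool.Agent.Results.MP_dc323a_nt.RadicalsLargeDeviations

open Filter Topology

/-- `max {|a|, |b|, |a + b|}` -/
noncomputable def size (a b : GaussianInt) : ℝ :=
  max ‖GaussianInt.toComplex a‖ (max ‖GaussianInt.toComplex b‖ ‖GaussianInt.toComplex (a + b)‖)

/-- `rad(n)`: the product of `|Q|` over the Gaussian primes `Q` dividing `n`, one from each class of associates, namely
the one with `Re Q > 0` and `Im Q ≥ 0` -/
noncomputable def rad (n : GaussianInt) : ℝ :=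
  ∏ᶠ Q ∈ {Q : GaussianInt | Prime Q ∧ Q ∣ n ∧ (0 < Q.re ∧ 0 ≤ Q.im)}, ‖GaussianInt.toComplex Q‖

/-- the three members `a, b, a + b` -/
def member (p : GaussianInt × GaussianInt) : Fin 3 → GaussianInt := ![p.1, p.2, p.1 + p.2]

/-- the gains: the numbers `1 - log rad(n) / log max`, `n = a, b, a + b`, cut off at `0` and `1` -/
noncomputable def gain (p : GaussianInt × GaussianInt) (l : Fin 3) : ℝ :=
  max 0 (min 1 (1 - Real.log (rad (member p l)) / Real.log (size p.1 p.2)))

/-- `a`, `b` are coprime and `a b (a + b) ≠ 0` -/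
def Coprime3 (p : GaussianInt × GaussianInt) : Prop :=
  p.1 ≠ 0 ∧ p.2 ≠ 0 ∧ p.1 + p.2 ≠ 0 ∧ IsCoprime p.1 p.2

/-- the pairs `(a, b)` of coprime Gaussian integers with `a b c ≠ 0`, `c = a + b`, `max {|a|, |b|, |c|} ≤ X` and gains
in `E` -/
def Triples (E : Set (Fin 3 → ℝ)) (X : ℝ) : Set (GaussianInt × GaussianInt) :=
  {p | Coprime3 p ∧ size p.1 p.2 ≤ X ∧ gain p ∈ E}

/-- `g` is in the unit cube -/
def Cube (g : Fin 3 → ℝ) : Prop := (∀ l, 0 ≤ g l) ∧ ∀ l, g l ≤ 1

/-- `E` is closed, `κ` has nonnegative coordinates and a total `∑ κ_l` between `0` and `1`, `E`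
contains a small cube with the corner `κ`, all elements of `E` in the unit cube have at least the total
`∑ κ_l`, and those with the same total have at most the same sum of the square roots. -/
structure Admissible (E : Set (Fin 3 → ℝ)) (κ : Fin 3 → ℝ) : Prop where
  closed : IsClosed E
  nonneg : ∀ l, 0 ≤ κ l
  pos : 0 < ∑ l, κ l
  lt : ∑ l, κ l < 1
  corner : ∃ η : ℝ, 0 < η ∧ ∀ g : Fin 3 → ℝ, (∀ l, κ l ≤ g l ∧ g l ≤ κ l + η) → g ∈ E
  least : ∀ g ∈ E, Cube g → ∑ l, κ l ≤ ∑ l, g l
  largest : ∀ g ∈ E, Cube g → ∑ l, g l = ∑ l, κ l → ∑ l, √(g l) ≤ ∑ l, √(κ l)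

open Pool.Agent.TH402.AK (K4 e GTri phi one_le_nm)
open Pool.Agent.Run7.h585.NF Pool.Agent.W223.AK Pool.Agent.N906.RS Run7.h585.LD.Abs

theorem log_rad {n : GaussianInt} (hn : n ≠ 0) : 2 * Real.log (rad n) = radI (e n) := Gau.log_rad hn

theorem rad_pos {n : GaussianInt} : 0 < rad n := by
  have hm : ∀ x y : ℝ, 1 ≤ x → 1 ≤ y → 1 ≤ x * y := fun x y hx hy => by nlinarith
  refine lt_of_lt_of_le one_pos (finprod_induction (fun x : ℝ => 1 ≤ x) le_rfl hm fun Q => ?_)
  refine finprod_induction (fun x : ℝ => 1 ≤ x) le_rfl hm fun hQ => ?_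
  exact one_le_nm hQ.1.ne_zero

/-- the radical of `abc` -/
theorem rad_mul {p : GaussianInt × GaussianInt} (hp : Coprime3 p) :
    rad (p.1 * p.2 * (p.1 + p.2)) = rad p.1 * rad p.2 * rad (p.1 + p.2) := by
  have hg : GTri p := hp
  have h1 := radI_prod hg.tri
  rw [radI_sum hg.tri] at h1
  have e1 : e p.1 * e p.2 * (e p.1 + e p.2) = e (p.1 * p.2 * (p.1 + p.2)) := by
    simp only [map_mul, map_add]
  rw [e1, ← map_add, ← log_rad hp.1, ← log_rad hp.2.1, ← log_rad hp.2.2.1,
    ← log_rad (mul_ne_zero (mul_ne_zero hp.1 hp.2.1) hp.2.2.1)] at h1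
  have h2 : Real.log (rad (p.1 * p.2 * (p.1 + p.2))) =
      Real.log (rad p.1 * rad p.2 * rad (p.1 + p.2)) := by
    rw [Real.log_mul (mul_pos rad_pos rad_pos).ne' rad_pos.ne',
      Real.log_mul rad_pos.ne' rad_pos.ne']
    linarith
  exact Real.log_injOn_pos (Set.mem_Ioi.2 rad_pos)
    (Set.mem_Ioi.2 (mul_pos (mul_pos rad_pos rad_pos) rad_pos)) h2

theorem H3_phi {p : GaussianInt × GaussianInt} (hp : Coprime3 p) :
    H3 (rp (phi p)) = 2 * Real.log (size p.1 p.2) := by
  have hg : GTri p := hp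
  have h1 := H3_rp hg.tri
  have h2 : hI (e p.1) (e p.2) = 2 * Real.log (size p.1 p.2) := Gau.hI_gauss p
  rw [h2] at h1
  exact h1

theorem gain_phi {p : GaussianInt × GaussianInt} (hp : Coprime3 p) : g33 (rp (phi p)) = gain p := by
  have hg : GTri p := hp
  funext l
  have h1 : cd3 l (rp (phi p)) = radI (n3 (e p.1) (e p.2) l) := cd3_rp hg.tri l
  have h2 : radI (n3 (e p.1) (e p.2) l) = 2 * Real.log (rad (member p l)) := by
    have h3 : ∀ l : Fin 3, l = 0 ∨ l = 1 ∨ l = 2 := by decide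
    rcases h3 l with rfl | rfl | rfl
    · exact (log_rad hp.1).symm
    · exact (log_rad hp.2.1).symm
    · have h4 := log_rad hp.2.2.1
      rw [map_add] at h4
      exact h4.symm
  unfold g33 gain
  rw [H3_phi hp, h1, h2, mul_div_mul_left _ _ two_ne_zero]

/-- the point of a pair -/
noncomputable def pq (p : GaussianInt × GaussianInt) (hp : Coprime3 p) : Q3 (Set.univ : Set K4) :=
  ⟨phi p, (show GTri p from hp).tri.pt, Set.mem_univ _⟩

theorem mem_iff {E : Set (Fin 3 → ℝ)} {T : ℝ} {p : GaussianInt × GaussianInt} (hp : Coprime3 p) :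
    pq p hp ∈ AS (H33 (Set.univ : Set K4)) (gQ Set.univ) E (2 * T) ↔
      size p.1 p.2 ≤ Real.exp T ∧ gain p ∈ E := by
  have hg : GTri p := hp
  have h1 : H33 (Set.univ : Set K4) (pq p hp) = 2 * Real.log (size p.1 p.2) := H3_phi hp
  have h2 : gQ (Set.univ : Set K4) (pq p hp) = gain p := gain_phi hp
  have hs : 0 < size p.1 p.2 := lt_of_lt_of_le one_pos (Pool.Agent.TH402.AK.one_le_size hg)
  show H33 (Set.univ : Set K4) (pq p hp) ≤ 2 * T ∧ gQ (Set.univ : Set K4) (pq p hp) ∈ E ↔ _
  rw [h1, h2, ← Real.log_le_iff_le_exp hs]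
  constructor
  · rintro ⟨h3, h4⟩
    exact ⟨by linarith, h4⟩
  · rintro ⟨h3, h4⟩
    exact ⟨by linarith, h4⟩

theorem count (E : Set (Fin 3 → ℝ)) (T : ℝ) : (Triples E (Real.exp T)).Finite ∧
    ((AS (H33 (Set.univ : Set K4)) (gQ Set.univ) E (2 * T)).ncard : ℝ) ≤
      ((Triples E (Real.exp T)).ncard : ℝ) ∧
    ((Triples E (Real.exp T)).ncard : ℝ) ≤
      4 * ((AS (H33 (Set.univ : Set K4)) (gQ Set.univ) E (2 * T)).ncard : ℝ) := by
  classical
  have hfin : (AS (H33 (Set.univ : Set K4)) (gQ Set.univ) E (2 * T)).Finite :=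
    as_finite (fin33 _) E _
  have hfin2 : ((fun q : Q3 (Set.univ : Set K4) => q.1) ''
      AS (H33 (Set.univ : Set K4)) (gQ Set.univ) E (2 * T)).Finite := hfin.image _
  have hcard : ((fun q : Q3 (Set.univ : Set K4) => q.1) ''
      AS (H33 (Set.univ : Set K4)) (gQ Set.univ) E (2 * T)).ncard =
      (AS (H33 (Set.univ : Set K4)) (gQ Set.univ) E (2 * T)).ncard :=
    Set.ncard_image_of_injective _ Subtype.val_injective
  have hmap : ∀ p ∈ Triples E (Real.exp T), phi p ∈ (fun q : Q3 (Set.univ : Set K4) => q.1) ''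
      AS (H33 (Set.univ : Set K4)) (gQ Set.univ) E (2 * T) := by
    rintro p ⟨h1, h2, h3⟩
    exact ⟨pq p h1, (mem_iff h1).2 ⟨h2, h3⟩, rfl⟩
  have hle : ∀ F : Finset (GaussianInt × GaussianInt), (F : Set _) ⊆ Triples E (Real.exp T) →
      F.card ≤ 4 * (AS (H33 (Set.univ : Set K4)) (gQ Set.univ) E (2 * T)).ncard := by
    intro F hF
    have h1 := Pool.Agent.TH402.AK.card_le_four F fun p hp => (hF hp).1
    refine h1.trans (Nat.mul_le_mul_left 4 ?_)
    rw [← hcard, Set.ncard_eq_toFinset_card _ hfin2]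
    refine Finset.card_le_card fun x hx => ?_
    obtain ⟨p, hp, rfl⟩ := Finset.mem_image.1 hx
    exact hfin2.mem_toFinset.2 (hmap p (hF hp))
  have hT : (Triples E (Real.exp T)).Finite := by
    by_contra hinf
    obtain ⟨F, hF, hFc⟩ := Set.Infinite.exists_subset_card_eq hinf
      (4 * (AS (H33 (Set.univ : Set K4)) (gQ Set.univ) E (2 * T)).ncard + 1)
    have := hle F hF
    omega
  refine ⟨hT, ?_, ?_⟩
  · rw [← hcard]
    have hsub : (fun q : Q3 (Set.univ : Set K4) => q.1) ''
        AS (H33 (Set.univ : Set K4)) (gQ Set.univ) E (2 * T) ⊆ phi '' Triples E (Real.exp T) := by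
      rintro _ ⟨q, hq, rfl⟩
      obtain ⟨p, hp, hpq⟩ := Gau.exists_gauss q.2.1
      have hp' : Coprime3 p := hp
      have e1 : pq p hp' = q := Subtype.ext hpq
      rw [← e1, mem_iff hp'] at hq
      exact ⟨p, ⟨hp', hq.1, hq.2⟩, hpq⟩
    have h1 := Set.ncard_le_ncard hsub (hT.image _)
    have h2 := Set.ncard_image_le (f := phi) hT
    exact_mod_cast h1.trans h2
  · have h1 := hle hT.toFinset (by simp)
    rw [← Set.ncard_eq_toFinset_card _ hT] at h1
    exact_mod_cast h1

/-- **Large deviations of the radicals of coprime Gaussian integers `a + b = c`.** The radical of `abc` is the product of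
the three radicals. Let `E`, `κ` be admissible. The number `V(X)` of the pairs `(a, b)` with
`max {|a|, |b|, |c|} ≤ X` and gains in `E` is finite,
`(log V(X) - 2 (2 - ∑ κ_l) log X) / √(log X / log log X)` tends to `4 ∑_l √κ_l`, and if `U` is open and contains all `g`
in `E` in the unit cube with `∑ g_l = ∑ κ_l`, `∑ √g_l = ∑ √κ_l`, then for a `δ > 0` and all large `X` at most
`exp (-δ √(log X / log log X)) V(X)` of these pairs have gains outside `U`. -/
theorem result :
    (∀ p : GaussianInt × GaussianInt, Coprime3 p →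
      rad (p.1 * p.2 * (p.1 + p.2)) = rad p.1 * rad p.2 * rad (p.1 + p.2)) ∧
    ∀ (E : Set (Fin 3 → ℝ)) (κ : Fin 3 → ℝ), Admissible E κ →
      (∀ X : ℝ, (Triples E X).Finite) ∧
      Tendsto (fun X : ℝ => (Real.log ((Triples E X).ncard : ℝ) -
          2 * (2 - ∑ l, κ l) * Real.log X) / √(Real.log X / Real.log (Real.log X))) atTop
        (𝓝 (4 * ∑ l, √(κ l))) ∧
      ∀ U : Set (Fin 3 → ℝ), IsOpen U →
        (∀ g ∈ E, Cube g → ∑ l, g l = ∑ l, κ l → ∑ l, √(g l) = ∑ l, √(κ l) → g ∈ U) →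
        ∃ δ : ℝ, 0 < δ ∧ ∀ᶠ X : ℝ in atTop, ((Triples (E \ U) X).ncard : ℝ) ≤
          Real.exp (-(δ * √(Real.log X / Real.log (Real.log X)))) * ((Triples E X).ncard : ℝ) := by
  refine ⟨fun p hp => rad_mul hp, fun E κ hE => ?_⟩
  obtain ⟨η, hη, hb⟩ := hE.corner
  have hd : (0 : ℝ) < 2 := two_pos
  have h1 : ∀ g ∈ E, (∀ l, 0 ≤ g l) → (∀ l, g l ≤ 1) → ∑ l, κ l ≤ ∑ l, g l :=
    fun g hg g0 g1 => hE.least g hg ⟨g0, g1⟩
  have h2 : ∀ g ∈ E, (∀ l, 0 ≤ g l) → (∀ l, g l ≤ 1) → ∑ l, g l = ∑ l, κ l →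
      ∑ l, √(g l) ≤ ∑ l, √(κ l) := fun g hg g0 g1 => hE.largest g hg ⟨g0, g1⟩
  have hW : ∀ t : K4, (∀ w : NumberField.InfinitePlace K4, 0 < (w.embedding t).re) →
      t ∈ (Set.univ : Set K4) := fun t _ => Set.mem_univ t
  have hexp : ∀ᶠ X : ℝ in atTop, Real.exp (Real.log X) = X := by
    filter_upwards [eventually_gt_atTop (0 : ℝ)] with X hX
    exact Real.exp_log hX
  have hlim := ab_lim (fin33 (Set.univ : Set K4)) gQ0 gQ1 (ub33 Set.univ) (lb33 hW) le_rfl hE.closed
      hE.nonneg hE.pos hE.lt hη hb h1 h2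
  have h5 := lim_scale hd hlim
  have e1 : √2 * (√8 * ∑ l, √(κ l)) = 4 * ∑ l, √(κ l) := by
    rw [← mul_assoc, ← Real.sqrt_mul (by norm_num)]
    have : (2 : ℝ) * 8 = 4 ^ 2 := by norm_num
    rw [this, Real.sqrt_sq (by norm_num)]
  rw [e1] at h5
  -- the number of points is positive for large heights
  have hpos : ∀ᶠ T : ℝ in atTop,
      (0 : ℝ) < ((AS (H33 (Set.univ : Set K4)) (gQ Set.univ) E (2 * T)).ncard : ℝ) := by
    have hbox := ab_box (fin33 (Set.univ : Set K4)) gQ0 gQ1 (ub33 Set.univ) (lb33 hW) le_rfl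
      hE.nonneg hE.pos hE.lt hη hb one_pos
    obtain ⟨X₁, -, hbox⟩ := hbox
    filter_upwards [eventually_ge_atTop (X₁ / 2)] with T hT
    exact lt_of_lt_of_le (Real.exp_pos _) (hbox (2 * T) (by linarith))
  refine ⟨fun X => ?_, ?_, fun U hU h3 => ?_⟩
  · rcases le_or_gt X 0 with hX | hX
    · have : Triples E X = ∅ := by
        ext p
        simp only [Set.mem_empty_iff_false, iff_false]
        rintro ⟨h6, h7, -⟩
        have h8 : 1 ≤ size p.1 p.2 := Pool.Agent.TH402.AK.one_le_size (show GTri p from h6)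
        linarith
      rw [this]
      exact Set.finite_empty
    · have := (count E (Real.log X)).1
      rwa [Real.exp_log hX] at this
  · have h6 := four_lim (V := fun T => ((Triples E (Real.exp T)).ncard : ℝ)) (m := 4) (by norm_num)
      (fun T => (count E T).2.1) (fun T => (count E T).2.2) hpos h5
    have h7 := h6.comp Real.tendsto_log_atTop
    refine h7.congr' ?_
    filter_upwards [hexp] with X hX
    simp only [Function.comp, hX]
  · obtain ⟨δ, hδ, X₀, -, h⟩ := ab_conc (fin33 (Set.univ : Set K4)) gQ0 gQ1 (ub33 Set.univ)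
      (lb33 hW) le_rfl hE.closed hE.nonneg hE.pos hE.lt hη hb h1 h2 hU
      (fun g hg g0 g1 => h3 g hg ⟨g0, g1⟩)
    obtain ⟨δ', hδ', L₀, h6⟩ := exp_scale hd
      (N := fun X => ((AS (H33 (Set.univ : Set K4)) (gQ Set.univ) (E \ U) X).ncard : ℝ))
      (M := fun X => ((AS (H33 (Set.univ : Set K4)) (gQ Set.univ) E X).ncard : ℝ))
      (fun _ => Nat.cast_nonneg _) hδ h
    have h7 := four_exp (V := fun T => ((Triples E (Real.exp T)).ncard : ℝ))
      (V' := fun T => ((Triples (E \ U) (Real.exp T)).ncard : ℝ)) (m := 4) (by norm_num) hδ'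
      (fun T => (count E T).2.1) (fun T => (count (E \ U) T).2.2) (fun _ => Nat.cast_nonneg _) h6
    refine ⟨δ' / 2, by positivity, ?_⟩
    have h8 := Real.tendsto_log_atTop.eventually h7
    filter_upwards [h8, hexp] with X hX hX2
    rw [hX2] at hX
    exact hX

end Pool.Agent.Results.MP_dc323a_nt.RadicalsLargeDeviations
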