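import Mathlib
import Pool.Agent.Run7.h720.Gauss

set_option autoImplicit false

/-!
# The abc inequality for sparse Gaussian integers

Let `L` be a number field with an embedding `φ` of the ring of Gaussian integers and `Γ` a finitely
generated subgroup of the multiplicative group of `L`. A Gaussian integer is called short if it is a sum
of `r` terms `x * γ` with `γ` in `Γ` and `x` in `L` of height at most `B * H ^ δ`. For coprime short
Gaussian integers `a + b = c` with `H = max (|a|, |b|, |c|)`, a short Gaussian integer `ρ` and an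
arbitrary Gaussian integer `τ` such that `a * b * c` divides `ρ ^ m * τ` we prove

  `H ≤ C * (|ρ| * |τ|) ^ (1 + ε)`

if `δ` is small enough. The product `ρ * τ` takes the place of the radical of `a * b * c`.
-/

namespace Pool.Agent.Results.MP_dc323a_nt.SparseTriplesAnyCofactor

/-- The Gaussian integer `z` is a sum of `r` terms `x * γ`, where `γ` is in `Γ` and `x` is an element of
`L` of (multiplicative) height at most `R`. -/
def IsShort {L : Type} [Field L] [NumberField L] (φ : GaussianInt →+* L) (Γ : Subgroup Lˣ) (r : ℕ)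
    (R : ℝ) (z : GaussianInt) : Prop :=
  ∃ (x : Fin r → L) (γ : Fin r → Lˣ), (∀ j, γ j ∈ Γ) ∧ (∀ j, Height.mulHeight₁ (x j) ≤ R) ∧
    φ z = ∑ j, x j * (γ j : L)

/-- The absolute value of a Gaussian integer. -/
noncomputable def size (z : GaussianInt) : ℝ := ‖GaussianInt.toComplex z‖

/-- `max (|a|, |b|, |c|)` -/
noncomputable def height (a b c : GaussianInt) : ℝ := max (size a) (max (size b) (size c))

/-- **Main theorem.** Let `φ` be an embedding of the ring of Gaussian integers into a number field `L`
and let `Γ` be a finitely generated subgroup of the multiplicative group of `L`. For all natural numbers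
`r`, `m`, every real `B` and every `ε > 0` there are `δ > 0` and `C > 0` with the following property. Let
`a + b = c` be coprime Gaussian integers with `a * b * c ≠ 0`, and let `ρ`, `τ` be nonzero Gaussian
integers such that `a * b * c` divides `ρ ^ m * τ`. If `a`, `b` and `ρ` are sums of `r` terms `x * γ`
with `γ` in `Γ` and `x` in `L` of height at most `B * (max (|a|, |b|, |c|)) ^ δ`, then
`max (|a|, |b|, |c|) ≤ C * (|ρ| * |τ|) ^ (1 + ε)`. -/
theorem result (L : Type) [Field L] [NumberField L] (φ : GaussianInt →+* L)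
    (Γ : Subgroup Lˣ) (hΓ : Γ.FG) (r m : ℕ) (B ε : ℝ) (hε : 0 < ε) :
    ∃ δ C : ℝ, 0 < δ ∧ 0 < C ∧ ∀ a b c ρ τ : GaussianInt, IsCoprime a b → a + b = c →
      a * b * c ≠ 0 → ρ ≠ 0 → τ ≠ 0 → a * b * c ∣ ρ ^ m * τ →
      IsShort φ Γ r (B * height a b c ^ δ) a → IsShort φ Γ r (B * height a b c ^ δ) b →
      IsShort φ Γ r (B * height a b c ^ δ) ρ →
      height a b c ≤ C * (size ρ * size τ) ^ (1 + ε) := by
  obtain ⟨δ, C, hδ, hC, h⟩ := Pool.Agent.Run7.h720.gauss_abc L φ Γ hΓ r m B ε hε
  exact ⟨δ, C, hδ, hC, fun a b c ρ τ h1 h2 h3 h4 h5 h6 h7 h8 h9 =>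
    h a b c ρ τ _ rfl h1 h2 h3 h4 h5 h6 h7 h8 h9⟩

end Pool.Agent.Results.MP_dc323a_nt.SparseTriplesAnyCofactor
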